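import Pool.Agent.Lib.helper31.UAT

set_option autoImplicit false

namespace Pool.Agent.Results.MP_eb20fa_an.Characterization

open Complex Metric Set Filter Topology MeasureTheory ComplexConjugate ContinuousLinearMap

/-- the Hardy space, as the Hilbert space of square summable Taylor coefficient sequences -/
abbrev H2 : Type := lp (fun _ : ℕ => ℂ) 2

/-- the value at `z` of the analytic function with Taylor coefficients `f` -/
noncomputable def val (f : H2) (z : ℂ) : ℂ := ∑' n, f n * z ^ n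

/-- the radial boundary value of `φ` at `e^{iθ}` (it exists for almost every `θ`) -/
noncomputable def bd (φ : ℂ → ℂ) (θ : ℝ) : ℂ :=
  limUnder (𝓝[<] (1 : ℝ)) fun r : ℝ => φ (r * exp (θ * I))

/-- the Poisson (Berezin) transform at `a` of the pull-back measure restricted to the open disc -/
noncomputable def ber (φ : ℂ → ℂ) (a : ℂ) : ℝ :=
  (2 * Real.pi)⁻¹ * ∫ θ in (0 : ℝ)..2 * Real.pi,
    if ‖bd φ θ‖ < 1 then (1 - ‖a‖ ^ 2) / ‖1 - conj a * bd φ θ‖ ^ 2 else 0

/-- bounded operators on the Hardy space -/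
abbrev Op : Type := H2 →L[ℂ] H2

/-- `C` is the composition operator of `φ` -/
def IsComp (φ : ℂ → ℂ) (C : Op) : Prop := ∀ f, ∀ z ∈ ball (0 : ℂ) 1, val (C f) z = val f (φ z)

/-- `S` is multiplication by `z` -/
def IsShift (S : Op) : Prop := ∀ f, ∀ z ∈ ball (0 : ℂ) 1, val (S f) z = z * val f z

section
variable {E : Type} [NormedAddCommGroup E] [InnerProductSpace ℂ E] [CompleteSpace E]

/-- `C* C` -/
noncomputable def gram (C : E →L[ℂ] E) : E →L[ℂ] E := adjoint C ∘L C

/-- `S*^n T S^n` -/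
noncomputable def seq (S T : E →L[ℂ] E) : ℕ → E →L[ℂ] E
  | 0 => T
  | n + 1 => adjoint S ∘L seq S T n ∘L S

/-- `T` is uniformly asymptotically Toeplitz: `S*^n T S^n` converges in operator norm -/
def UAT (S T : E →L[ℂ] E) : Prop :=
  ∃ A : E →L[ℂ] E, Tendsto (fun n => ‖seq S T n - A‖) atTop (𝓝 0)

lemma seq_eq (S C : E →L[ℂ] E) : seq S (gram C) = fun n => star (C * S ^ n) * (C * S ^ n) := by
  funext n
  induction n with
  | zero => simp [seq, gram, star_eq_adjoint, mul_def]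
  | succ n ih =>
    rw [seq, ih]
    simp only [← star_eq_adjoint, ← mul_def, pow_succ, star_mul, mul_assoc]

end

theorem result (φ : ℂ → ℂ) (hφ : DifferentiableOn ℂ φ (ball 0 1))
    (hm : MapsTo φ (ball (0 : ℂ) 1) (ball (0 : ℂ) 1)) (C S : Op) (hC : IsComp φ C)
    (hS : IsShift S) : UAT S (gram C) ↔
    ∀ ε > 0, ∃ r < 1, ∀ a : ℂ, r < ‖a‖ → ‖a‖ < 1 → ber φ a < ε := by
  have hp : (0 : ℝ) < (2 * Real.pi)⁻¹ := by positivity
  have m := fun m θ => H31.Hardy.cm_mem (Real.exp_pos _) (H31.Hardy.rlt m) θ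
  have hb : ∀ᵐ θ : ℝ, Tendsto (fun m : ℕ => φ (circleMap 0 (Real.exp (-(1 / ((m : ℝ) + 1)))) θ))
      atTop (𝓝 (bd φ θ)) := by
    filter_upwards [H31.Fatou.fatou hφ hm] with θ ⟨a, h⟩
    simp only [H31.SAT.pt_eq] at h
    have h2 : Tendsto (fun r : ℝ => φ (r * exp (θ * I))) (𝓝[<] 1) (𝓝 a) := by
      refine (h.comp H31.SAT.log_tend).congr' ?_
      filter_upwards [Ioo_mem_nhdsLT (zero_lt_one' ℝ)] with r hr
      simp only [Function.comp, neg_neg, Real.exp_log hr.1]
    rw [bd, h2.limUnder_eq]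
    simpa only [circleMap, zero_add, Function.comp_def] using h2.comp (tendsto_nhdsWithin_iff.2
      ⟨H31.Hardy.rlim, Eventually.of_forall H31.Hardy.rlt⟩)
  have am := aestronglyMeasurable_of_tendsto_ae atTop (fun m =>
    (H31.Hardy.cm_cont hφ (Real.exp_pos _) (H31.Hardy.rlt m)).aestronglyMeasurable) hb
  have mm := am.stronglyMeasurable_mk.measurable
  set b : ℝ → ℂ := fun θ => if ‖am.mk _ θ‖ ≤ 1 then am.mk _ θ else 0 with hbd
  have bm : Measurable b := Measurable.ite (measurableSet_le mm.norm measurable_const) mm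
    measurable_const
  have b1 : ∀ θ, ‖b θ‖ ≤ 1 := fun θ => by
    simp only [hbd]
    split_ifs with h
    exacts [h, by simp]
  have be : ∀ᵐ θ : ℝ, bd φ θ = b θ := by
    filter_upwards [am.ae_eq_mk, hb] with θ h h2
    simp only [hbd]
    rw [← h, if_pos (le_of_tendsto' h2.norm fun k => (mem_ball_zero_iff.1 (hm (m k θ))).le)]
  have hb2 := (hb.and be).mono fun θ h => h.2 ▸ h.1
  have e : ∀ a, ber φ a = (2 * Real.pi)⁻¹ * ∫ θ in (0 : ℝ)..2 * Real.pi,
      if ‖b θ‖ < 1 then H31.H2.Pk a (b θ) else 0 := fun a => by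
    rw [ber, intervalIntegral.integral_congr_ae (be.mono fun θ h _ => by rw [h])]
    rfl
  simp only [UAT, ← tendsto_iff_norm_sub_tendsto_zero, e, seq_eq]
  constructor
  · rintro ⟨A, h⟩ ε hε
    have h1 := ((H31.H2.of_uat hm bm b1 hb2 hC hS h.cauchySeq).const_mul
      (2 * Real.pi)⁻¹).eventually (gt_mem_nhds (by simpa using hε))
    rw [eventually_comap] at h1
    obtain ⟨r, r1, hr⟩ := (mem_nhdsLT_iff_exists_Ioo_subset).1 h1
    exact ⟨r, r1, fun a h1 h2 => hr ⟨h1, h2⟩ a rfl⟩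
  · intro h
    refine cauchySeq_tendsto_of_complete (H31.H2.uat_of hm bm b1 hb2 hC hS ?_)
    rw [NormedAddGroup.tendsto_nhds_zero]
    intro ε hε
    obtain ⟨r, r1, hr⟩ := h _ (mul_pos hp hε)
    rw [eventually_comap]
    filter_upwards [Ioo_mem_nhdsLT r1] with t ht a ha
    subst ha
    rw [Real.norm_of_nonneg (intervalIntegral.integral_nonneg (by positivity) fun θ _ => by
      split_ifs; exacts [H31.H2.Pk_nonneg ht.2.le _, le_rfl])]
    exact lt_of_mul_lt_mul_left (hr a ht.1 ht.2) hp.le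

end Pool.Agent.Results.MP_eb20fa_an.Characterization
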